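import Pool.Agent.Q247.CR.WINA
import Pool.Agent.H153R4.Pl
import Pool.Agent.H370R2.MV

/-!
# Job WIN of project CR: windows by Dirichlet polynomials
-/

set_option autoImplicit false

namespace Pool.Agent.Q247.CR

open Finset MeasureTheory Filter
open Pool.Agent.Q236.CR
open scoped ENNReal FourierTransform

/-- the Dirichlet polynomial -/
noncomputable def AA (a : ℕ → ℂ) (x : ℕ) (τ : ℝ) : ℂ :=
  ∑ n ∈ Finset.Ioc x (9 * x), a n * nt τ n

theorem nt_exp {n : ℕ} (hn : n ≠ 0) (τ : ℝ) :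
    nt τ n = Complex.exp (((-(τ * Real.log n) : ℝ) : ℂ) * Complex.I) := by
  unfold nt
  have hn0 : (n : ℂ) ≠ 0 := by exact_mod_cast hn
  rw [Complex.cpow_def_of_ne_zero hn0, ← Complex.natCast_log]
  congr 1
  push_cast
  ring

theorem AA_cont (a : ℕ → ℂ) (x : ℕ) : Continuous (AA a x) := by
  unfold AA
  refine continuous_finsetSum _ fun n hn => ?_
  rw [Finset.mem_Ioc] at hn
  have h : (fun τ : ℝ => nt τ n) =
      fun τ : ℝ => Complex.exp (((-(τ * Real.log n) : ℝ) : ℂ) * Complex.I) := by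
    funext τ
    exact nt_exp (by omega) τ
  have h2 : Continuous fun τ : ℝ => nt τ n := by
    rw [h]
    fun_prop
  exact continuous_const.mul h2

/-- the kernel -/
noncomputable def KK (k ξ : ℝ) : ℂ :=
  ∫ w in (-k)..0, Complex.exp (((-2 * Real.pi * w * ξ : ℝ) : ℂ) * Complex.I)

theorem KK_le {k : ℝ} (hk : 0 ≤ k) (ξ : ℝ) : ‖KK k ξ‖ ≤ k := by
  unfold KK
  have h := intervalIntegral.norm_integral_le_of_norm_le_const (a := -k) (b := 0) (C := 1)
    (f := fun w : ℝ => Complex.exp (((-2 * Real.pi * w * ξ : ℝ) : ℂ) * Complex.I))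
    (fun w _ => by rw [Complex.norm_exp_ofReal_mul_I])
  rw [one_mul, sub_neg_eq_add, zero_add, abs_of_nonneg hk] at h
  exact h

theorem KK_le' {k ξ : ℝ} (hξ : ξ ≠ 0) : ‖KK k ξ‖ ≤ 2 / |2 * Real.pi * ξ| := by
  unfold KK
  have hc : (((-2 * Real.pi * ξ : ℝ) : ℂ) * Complex.I) ≠ 0 := by
    refine mul_ne_zero ?_ Complex.I_ne_zero
    exact_mod_cast mul_ne_zero (mul_ne_zero (by norm_num) Real.pi_ne_zero) hξ
  have h1 : (fun w : ℝ => Complex.exp (((-2 * Real.pi * w * ξ : ℝ) : ℂ) * Complex.I)) =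
      fun w : ℝ => Complex.exp ((((-2 * Real.pi * ξ : ℝ) : ℂ) * Complex.I) * w) := by
    funext w
    congr 1
    push_cast
    ring
  rw [h1, integral_exp_mul_complex hc, norm_div, norm_mul, Complex.norm_I, mul_one,
    Complex.norm_real, Real.norm_eq_abs]
  have h3 : |-2 * Real.pi * ξ| = |2 * Real.pi * ξ| := by
    rw [← abs_neg]
    congr 1
    ring
  rw [h3]
  refine div_le_div_of_nonneg_right ?_ (abs_nonneg _)
  refine (norm_sub_le _ _).trans ?_
  have h2 : ∀ w : ℝ, ‖Complex.exp ((((-2 * Real.pi * ξ : ℝ) : ℂ) * Complex.I) * w)‖ = 1 := by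
    intro w
    have : (((-2 * Real.pi * ξ : ℝ) : ℂ) * Complex.I) * w =
        ((-2 * Real.pi * ξ * w : ℝ) : ℂ) * Complex.I := by push_cast; ring
    rw [this, Complex.norm_exp_ofReal_mul_I]
  rw [h2, h2]
  norm_num

theorem four_ind {n : ℕ} (hn : n ≠ 0) {k : ℝ} (hk : 0 ≤ k) (c : ℂ) (ξ : ℝ) :
    ∫ v : ℝ, Complex.exp (((-2 * Real.pi * v * ξ : ℝ) : ℂ) * Complex.I) •
      (Set.Ico (Real.log n - k) (Real.log n)).indicator (fun _ => c) v =
      c * nt (2 * Real.pi * ξ) n * KK k ξ := by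
  have h1 : (fun v : ℝ => Complex.exp (((-2 * Real.pi * v * ξ : ℝ) : ℂ) * Complex.I) •
      (Set.Ico (Real.log n - k) (Real.log n)).indicator (fun _ => c) v) =
      (Set.Ico (Real.log n - k) (Real.log n)).indicator
        (fun v => Complex.exp (((-2 * Real.pi * v * ξ : ℝ) : ℂ) * Complex.I) * c) := by
    funext v
    by_cases hv : v ∈ Set.Ico (Real.log n - k) (Real.log n)
    · rw [Set.indicator_of_mem hv, Set.indicator_of_mem hv, smul_eq_mul]
    · rw [Set.indicator_of_notMem hv, Set.indicator_of_notMem hv, smul_zero]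
  rw [h1, integral_indicator measurableSet_Ico, integral_Ico_eq_integral_Ioc,
    ← intervalIntegral.integral_of_le (by linarith), intervalIntegral.integral_mul_const]
  have h2 := intervalIntegral.integral_comp_add_right (a := -k) (b := 0)
    (fun v : ℝ => Complex.exp (((-2 * Real.pi * v * ξ : ℝ) : ℂ) * Complex.I)) (Real.log n)
  have e1 : -k + Real.log n = Real.log n - k := by ring
  rw [e1, zero_add] at h2
  rw [← h2]
  have h3 : (fun w : ℝ => Complex.exp (((-2 * Real.pi * (w + Real.log n) * ξ : ℝ) : ℂ) *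
      Complex.I)) = fun w : ℝ => nt (2 * Real.pi * ξ) n *
        Complex.exp (((-2 * Real.pi * w * ξ : ℝ) : ℂ) * Complex.I) := by
    funext w
    rw [nt_exp hn, ← Complex.exp_add]
    congr 1
    push_cast
    ring
  rw [h3, intervalIntegral.integral_const_mul]
  unfold KK
  ring

theorem ind_int (p r : ℝ) (c : ℂ) :
    Integrable ((Set.Ico p r).indicator (fun _ : ℝ => c)) := by
  refine (integrable_indicator_iff measurableSet_Ico).2 ?_
  exact integrableOn_const (by rw [Real.volume_Ico]; exact ENNReal.ofReal_ne_top)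

theorem ind_memLp (p r : ℝ) (c : ℂ) :
    MemLp ((Set.Ico p r).indicator (fun _ : ℝ => c)) 2 := by
  refine memLp_indicator_const 2 measurableSet_Ico c (Or.inr ?_)
  rw [Real.volume_Ico]
  exact ENNReal.ofReal_ne_top

theorem four_G (a : ℕ → ℂ) (x : ℕ) {k : ℝ} (hk : 0 ≤ k) (ξ : ℝ) :
    𝓕 (GG a x k) ξ = AA a x (2 * Real.pi * ξ) * KK k ξ := by
  rw [Real.fourier_real_eq_integral_exp_smul]
  have h1 : (fun v : ℝ => Complex.exp (((-2 * Real.pi * v * ξ : ℝ) : ℂ) * Complex.I) •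
      GG a x k v) = fun v : ℝ => ∑ n ∈ Finset.Ioc x (9 * x),
        Complex.exp (((-2 * Real.pi * v * ξ : ℝ) : ℂ) * Complex.I) •
        (Set.Ico (Real.log n - k) (Real.log n)).indicator (fun _ => a n) v := by
    funext v
    unfold GG
    rw [Finset.smul_sum]
  rw [h1, integral_finsetSum]
  · unfold AA
    rw [Finset.sum_mul]
    refine Finset.sum_congr rfl fun n hn => ?_
    rw [Finset.mem_Ioc] at hn
    exact four_ind (by omega) hk (a n) ξ
  · intro n _
    have h2 := ind_int (Real.log n - k) (Real.log n) (a n)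
    refine h2.bdd_mul (c := 1) ?_ ?_
    · exact (by fun_prop : Continuous fun v : ℝ =>
        Complex.exp (((-2 * Real.pi * v * ξ : ℝ) : ℂ) * Complex.I)).aestronglyMeasurable
    · exact Filter.Eventually.of_forall fun v => by rw [Complex.norm_exp_ofReal_mul_I]

/-- the weight -/
noncomputable def ww (k T τ : ℝ) : ℝ := if |τ| ≤ T then k ^ 2 else 4 / τ ^ 2

theorem ww_nonneg (k T τ : ℝ) : 0 ≤ ww k T τ := by
  unfold ww
  split_ifs <;> positivity

theorem ww_meas (k T : ℝ) : Measurable (ww k T) := by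
  unfold ww
  refine Measurable.ite (measurableSet_le (measurable_id.norm) measurable_const) measurable_const ?_
  exact measurable_const.div (measurable_id.pow_const 2)

/-- the weighted square -/
noncomputable def gg (a : ℕ → ℂ) (x : ℕ) (k T τ : ℝ) : ℝ≥0∞ :=
  ENNReal.ofReal (‖AA a x τ‖ ^ 2 * ww k T τ)

theorem gg_meas (a : ℕ → ℂ) (x : ℕ) (k T : ℝ) : Measurable (gg a x k T) := by
  unfold gg
  exact ENNReal.measurable_ofReal.comp
    (((AA_cont a x).measurable.norm.pow_const 2).mul (ww_meas k T))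

theorem scale (g : ℝ → ℝ≥0∞) (hg : Measurable g) :
    ∫⁻ ξ, g (2 * Real.pi * ξ) ≤ ∫⁻ τ, g τ := by
  have hpi := Real.pi_gt_three
  have h2 : (2 * Real.pi) ≠ 0 := by positivity
  rw [← lintegral_map hg (measurable_const_mul (2 * Real.pi)), Real.map_volume_mul_left h2,
    lintegral_smul_measure]
  have h3 : ENNReal.ofReal |(2 * Real.pi)⁻¹| ≤ 1 := by
    rw [ENNReal.ofReal_le_one, abs_of_pos (by positivity)]
    apply inv_le_one_of_one_le₀
    linarith
  calc ENNReal.ofReal |(2 * Real.pi)⁻¹| • ∫⁻ τ, g τ ≤ 1 • ∫⁻ τ, g τ := by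
        rw [smul_eq_mul, one_smul]
        exact mul_le_of_le_one_left' h3
    _ = ∫⁻ τ, g τ := one_smul _ _

theorem planch (a : ℕ → ℂ) (x : ℕ) {k T : ℝ} (hk : 0 ≤ k) (hT : 0 ≤ T) :
    ∫⁻ u, qq (GG a x k u) ≤ ∫⁻ τ, gg a x k T τ := by
  have h1 : Integrable (GG a x k) := by
    unfold GG
    exact integrable_finsetSum _ fun n _ => ind_int _ _ _
  have h2 : MemLp (GG a x k) 2 := by
    unfold GG
    exact memLp_finsetSum _ fun n _ => ind_memLp _ _ _
  have h3 := Pool.Agent.H153R4.plancherel (GG a x k) h1 h2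
  have h4 : ∀ z : ℂ, ‖z‖ₑ ^ 2 = qq z := by
    intro z
    unfold qq
    rw [ENNReal.ofReal_pow (norm_nonneg _), ofReal_norm]
  simp only [h4] at h3
  rw [← h3]
  refine le_trans (lintegral_mono fun ξ => ?_) (scale (gg a x k T) (gg_meas a x k T))
  change qq (𝓕 (GG a x k) ξ) ≤ gg a x k T (2 * Real.pi * ξ)
  rw [four_G a x hk]
  unfold qq gg
  apply ENNReal.ofReal_le_ofReal
  rw [norm_mul, mul_pow]
  refine mul_le_mul_of_nonneg_left ?_ (by positivity)
  unfold ww
  split_ifs with h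
  · exact pow_le_pow_left₀ (norm_nonneg _) (KK_le hk ξ) 2
  · have hξ : ξ ≠ 0 := by
      rintro rfl
      apply h
      simpa using hT
    have h5 := pow_le_pow_left₀ (norm_nonneg _) (KK_le' (k := k) hξ) 2
    refine h5.trans (le_of_eq ?_)
    rw [div_pow, sq_abs]
    norm_num

/-- the integral of the square over an interval -/
theorem int_sq (a : ℕ → ℂ) (x : ℕ) {c R : ℝ} (hc : 0 ≤ c) (hR : 0 ≤ R) :
    ∫⁻ τ in Set.Icc (-R) R, ENNReal.ofReal (‖AA a x τ‖ ^ 2 * c) =
      ENNReal.ofReal ((∫ τ in (-R)..R, ‖AA a x τ‖ ^ 2) * c) := by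
  have hcont : Continuous fun τ => ‖AA a x τ‖ ^ 2 * c :=
    ((AA_cont a x).norm.pow 2).mul continuous_const
  rw [← ofReal_integral_eq_lintegral_ofReal hcont.integrableOn_Icc
    (Filter.Eventually.of_forall fun τ => by positivity), integral_Icc_eq_integral_Ioc,
    ← intervalIntegral.integral_of_le (by linarith), intervalIntegral.integral_mul_const]

/-- the mean value theorem -/
theorem mv (a : ℕ → ℂ) (x : ℕ) (hx : 1 ≤ x) {R : ℝ} (hR : 0 ≤ R) :
    ∫ τ in (-R)..R, ‖AA a x τ‖ ^ 2 ≤ (2 * R + 300 * x * (1 + Real.log x)) *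
      ∑ n ∈ Finset.Ioc x (9 * x), ‖a n‖ ^ 2 := by
  have h1 := H370.mean_value (fun n => if n ∈ Finset.Ioc x (9 * x) then a n else 0) (9 * x)
    (-R) R (by linarith)
  have hsub : Finset.Icc 1 (9 * x) ∩ Finset.Ioc x (9 * x) = Finset.Ioc x (9 * x) := by
    apply Finset.inter_eq_right.2
    intro n hn
    rw [Finset.mem_Ioc] at hn
    rw [Finset.mem_Icc]
    omega
  have e1 : ∀ τ : ℝ, ∑ n ∈ Finset.Icc 1 (9 * x),
      (if n ∈ Finset.Ioc x (9 * x) then a n else 0) * (n : ℂ) ^ (-(τ : ℂ) * Complex.I) =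
      AA a x τ := by
    intro τ
    unfold AA nt
    conv_rhs => rw [← hsub]
    rw [← Finset.sum_ite_mem]
    refine Finset.sum_congr rfl fun n _ => ?_
    rw [ite_mul, zero_mul]
  have e2 : ∑ n ∈ Finset.Icc 1 (9 * x), ‖(if n ∈ Finset.Ioc x (9 * x) then a n else 0)‖ ^ 2 =
      ∑ n ∈ Finset.Ioc x (9 * x), ‖a n‖ ^ 2 := by
    conv_rhs => rw [← hsub]
    rw [← Finset.sum_ite_mem]
    refine Finset.sum_congr rfl fun n _ => ?_
    split_ifs <;> simp
  simp only [e1, e2] at h1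
  refine h1.trans ?_
  refine mul_le_mul_of_nonneg_right ?_ (Finset.sum_nonneg fun _ _ => by positivity)
  have hx1 : (1 : ℝ) ≤ x := by exact_mod_cast hx
  have hlx : 0 ≤ Real.log x := Real.log_nonneg hx1
  have hl9 : Real.log ((9 * x : ℕ) : ℝ) ≤ 3 + Real.log x := by
    push_cast
    rw [Real.log_mul (by norm_num) (by linarith)]
    have : Real.log 9 ≤ 3 := by
      rw [Real.log_le_iff_le_exp (by norm_num)]
      have h3 := Real.exp_one_gt_d9
      have h4 : Real.exp 3 = Real.exp 1 ^ 3 := by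
        rw [← Real.exp_nat_mul]
        norm_num
      rw [h4]
      calc (9 : ℝ) ≤ 2.7182818283 ^ 3 := by norm_num
        _ ≤ Real.exp 1 ^ 3 := pow_le_pow_left₀ (by norm_num) h3.le _
    linarith
  have h5 : 8 * ((9 * x : ℕ) : ℝ) * (1 + Real.log ((9 * x : ℕ) : ℝ)) ≤
      300 * x * (1 + Real.log x) := by
    calc 8 * ((9 * x : ℕ) : ℝ) * (1 + Real.log ((9 * x : ℕ) : ℝ))
        ≤ 8 * ((9 * x : ℕ) : ℝ) * (1 + (3 + Real.log x)) := by gcongr
      _ = 72 * x * (4 + Real.log x) := by push_cast; ring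
      _ ≤ 300 * x * (1 + Real.log x) := by nlinarith
  linarith

/-- the tail -/
theorem tail (a : ℕ → ℂ) (x : ℕ) (hx : 1 ≤ x) (k : ℝ) {T : ℝ} (hT : 1 ≤ T) :
    ∫⁻ τ in (Set.Icc (-T) T)ᶜ, gg a x k T τ ≤
      ENNReal.ofReal ((32 / T + 1600 * x * (1 + Real.log x) / T ^ 2) *
        ∑ n ∈ Finset.Ioc x (9 * x), ‖a n‖ ^ 2) := by
  have hT0 : 0 < T := by linarith
  obtain ⟨S, hS⟩ : ∃ S : ℝ, S = ∑ n ∈ Finset.Ioc x (9 * x), ‖a n‖ ^ 2 := ⟨_, rfl⟩
  have hS0 : 0 ≤ S := by rw [hS]; exact Finset.sum_nonneg fun _ _ => by positivity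
  obtain ⟨X, hX⟩ : ∃ X : ℝ, X = 300 * x * (1 + Real.log x) := ⟨_, rfl⟩
  have hx1 : (1 : ℝ) ≤ x := by exact_mod_cast hx
  have hlx : 0 ≤ Real.log x := Real.log_nonneg hx1
  have hX0 : 0 ≤ X := by rw [hX]; positivity
  let D : ℕ → Set ℝ := fun j => {τ | T < |τ| ∧ 2 ^ j * T ≤ |τ| ∧ |τ| ≤ 2 ^ (j + 1) * T}
  have hcov : (Set.Icc (-T) T)ᶜ ⊆ ⋃ j, D j := by
    intro τ hτ
    have h1 : T < |τ| := by
      by_contra hcon
      push Not at hcon
      exact hτ (abs_le.1 hcon)
    obtain ⟨j, hj1, hj2⟩ := exists_nat_pow_near (x := |τ| / T) (y := 2)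
      (by rw [le_div_iff₀ hT0]; linarith) (by norm_num)
    rw [Set.mem_iUnion]
    refine ⟨j, h1, ?_, ?_⟩
    · rwa [le_div_iff₀ hT0] at hj1
    · rw [div_lt_iff₀ hT0] at hj2
      exact hj2.le
  let c : ℕ → ℝ := fun j => (2 * (2 ^ (j + 1) * T) + X) * S * (4 / (2 ^ j * T) ^ 2)
  have hD : ∀ j, ∫⁻ τ in D j, gg a x k T τ ≤ ENNReal.ofReal (c j) := by
    intro j
    have hR : (0 : ℝ) ≤ 2 ^ (j + 1) * T := by positivity
    have hDm : MeasurableSet (D j) := by
      have m1 : Measurable fun τ : ℝ => |τ| := measurable_id.norm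
      exact (measurableSet_lt measurable_const m1).inter
        ((measurableSet_le measurable_const m1).inter (measurableSet_le m1 measurable_const))
    calc ∫⁻ τ in D j, gg a x k T τ ≤
        ∫⁻ τ in D j, ENNReal.ofReal (‖AA a x τ‖ ^ 2 * (4 / (2 ^ j * T) ^ 2)) := by
          refine setLIntegral_mono' hDm fun τ hτ => ?_
          unfold gg
          apply ENNReal.ofReal_le_ofReal
          refine mul_le_mul_of_nonneg_left ?_ (by positivity)
          unfold ww
          rw [if_neg (not_le.2 hτ.1), ← sq_abs τ]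
          gcongr
          exact hτ.2.1
      _ ≤ ∫⁻ τ in Set.Icc (-(2 ^ (j + 1) * T)) (2 ^ (j + 1) * T),
            ENNReal.ofReal (‖AA a x τ‖ ^ 2 * (4 / (2 ^ j * T) ^ 2)) :=
          lintegral_mono_set fun τ hτ => abs_le.1 hτ.2.2
      _ = ENNReal.ofReal ((∫ τ in (-(2 ^ (j + 1) * T))..(2 ^ (j + 1) * T), ‖AA a x τ‖ ^ 2) *
            (4 / (2 ^ j * T) ^ 2)) := int_sq a x (by positivity) hR
      _ ≤ ENNReal.ofReal (c j) := by
          apply ENNReal.ofReal_le_ofReal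
          refine mul_le_mul_of_nonneg_right ?_ (by positivity)
          have := mv a x hx hR
          rw [← hX, ← hS] at this
          exact this
  have hc : ∀ j, c j = S * (16 / T) * (1 / 2) ^ j + S * (4 * X / T ^ 2) * (1 / 4) ^ j := by
    intro j
    have h2 : ((2 : ℝ) ^ j) ≠ 0 := by positivity
    have h4 : (4 : ℝ) ^ j = 2 ^ j * 2 ^ j := by
      rw [← mul_pow]
      norm_num
    change (2 * (2 ^ (j + 1) * T) + X) * S * (4 / (2 ^ j * T) ^ 2) = _
    rw [one_div, one_div, inv_pow, inv_pow, h4, pow_succ]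
    field_simp
    ring
  have hsum1 : HasSum (fun j : ℕ => S * (16 / T) * (1 / 2 : ℝ) ^ j) (S * (16 / T) * 2) := by
    have := (hasSum_geometric_of_lt_one (r := 1 / 2) (by norm_num) (by norm_num)).mul_left
      (S * (16 / T))
    norm_num at this ⊢
    exact this
  have hsum2 : HasSum (fun j : ℕ => S * (4 * X / T ^ 2) * (1 / 4 : ℝ) ^ j)
      (S * (4 * X / T ^ 2) * (4 / 3)) := by
    have := (hasSum_geometric_of_lt_one (r := 1 / 4) (by norm_num) (by norm_num)).mul_left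
      (S * (4 * X / T ^ 2))
    norm_num at this ⊢
    exact this
  have hsum : HasSum c (S * (16 / T) * 2 + S * (4 * X / T ^ 2) * (4 / 3)) := by
    have := hsum1.add hsum2
    simp only [← hc] at this
    exact this
  have hc0 : ∀ j, 0 ≤ c j := fun j => by
    change 0 ≤ (2 * (2 ^ (j + 1) * T) + X) * S * (4 / (2 ^ j * T) ^ 2)
    positivity
  calc ∫⁻ τ in (Set.Icc (-T) T)ᶜ, gg a x k T τ ≤ ∫⁻ τ in ⋃ j, D j, gg a x k T τ :=
        lintegral_mono_set hcov
    _ ≤ ∑' j, ∫⁻ τ in D j, gg a x k T τ := lintegral_iUnion_le _ _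
    _ ≤ ∑' j, ENNReal.ofReal (c j) := ENNReal.tsum_le_tsum hD
    _ = ENNReal.ofReal (∑' j, c j) := (ENNReal.ofReal_tsum_of_nonneg hc0 hsum.summable).symm
    _ ≤ _ := by
        apply ENNReal.ofReal_le_ofReal
        rw [hsum.tsum_eq, hX, ← hS]
        have h7 : 0 ≤ x * (1 + Real.log x) / T ^ 2 * S := by positivity
        have h8 : S * (16 / T) * 2 + S * (4 * (300 * x * (1 + Real.log x)) / T ^ 2) * (4 / 3) =
            32 / T * S + 1600 * (x * (1 + Real.log x) / T ^ 2 * S) := by ring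
        rw [h8]
        apply le_of_eq
        ring

theorem win : S_WIN := by
  refine ⟨40000, by norm_num, ?_⟩
  intro a x Y T hY hxY hT
  have hx : 1 ≤ x := by omega
  have hx1 : (1 : ℝ) ≤ x := by exact_mod_cast hx
  have hY0 : (0 : ℝ) < Y := by exact_mod_cast hY
  have hlx : 0 ≤ Real.log x := Real.log_nonneg hx1
  have hT0 : 0 < T := by linarith
  obtain ⟨S, hS⟩ : ∃ S : ℝ, S = ∑ n ∈ Finset.Ioc x (9 * x), ‖a n‖ ^ 2 := ⟨_, rfl⟩
  have hS0 : 0 ≤ S := by rw [hS]; exact Finset.sum_nonneg fun _ _ => by positivity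
  obtain ⟨I, hI⟩ : ∃ I : ℝ, I = ∫ τ in (-T)..T, ‖AA a x τ‖ ^ 2 := ⟨_, rfl⟩
  have hI0 : 0 ≤ I := by
    rw [hI]
    exact intervalIntegral.integral_nonneg (by linarith) fun _ _ => by positivity
  have key : ∀ k ∈ Set.Icc ((Y : ℝ) / x) (4 * ((Y : ℝ) / x)),
      ∫⁻ y in Set.Icc (x : ℝ) (3 * x + 1), FF a x y k ≤
        ENNReal.ofReal (4 * x * (16 * ((Y : ℝ) / x) ^ 2 * I +
          (32 / T + 1600 * x * (1 + Real.log x) / T ^ 2) * S)) := by
    intro k hk
    have hκ : 0 ≤ (Y : ℝ) / x := by positivity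
    have hk0 : 0 ≤ k := by linarith [hk.1]
    have hk2 : k ^ 2 ≤ 16 * ((Y : ℝ) / x) ^ 2 := by
      have := pow_le_pow_left₀ hk0 hk.2 2
      linarith [this, (by ring : (4 * ((Y : ℝ) / x)) ^ 2 = 16 * ((Y : ℝ) / x) ^ 2)]
    refine (change hx hk0).trans ?_
    rw [ENNReal.ofReal_mul (p := 4 * (x : ℝ)) (by positivity)]
    refine mul_le_mul_right ?_ (ENNReal.ofReal (4 * x))
    refine (planch a x hk0 hT0.le).trans ?_
    rw [← lintegral_add_compl _ (measurableSet_Icc (a := -T) (b := T)),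
      ENNReal.ofReal_add (by positivity) (by positivity)]
    refine add_le_add ?_ ?_
    · calc ∫⁻ τ in Set.Icc (-T) T, gg a x k T τ ≤
          ∫⁻ τ in Set.Icc (-T) T, ENNReal.ofReal (‖AA a x τ‖ ^ 2 * k ^ 2) := by
            refine setLIntegral_mono' measurableSet_Icc fun τ hτ => ?_
            unfold gg ww
            rw [if_pos (abs_le.2 hτ)]
        _ = ENNReal.ofReal (I * k ^ 2) := by
            rw [hI]
            exact int_sq a x (by positivity) hT0.le
        _ ≤ _ := by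
            apply ENNReal.ofReal_le_ofReal
            nlinarith
    · rw [hS]
      exact tail a x hx k hT
  have h1 := (sum_windows (a := a) hxY).trans (sv hY hxY _ key)
  have h6 : (6 : ℝ≥0∞) = ENNReal.ofReal 6 := by norm_num
  rw [h6, ← ENNReal.ofReal_mul (by norm_num), ENNReal.ofReal_le_ofReal_iff (by positivity)] at h1
  refine h1.trans ?_
  have hI' : ∫ τ in (-T)..T, ‖∑ n ∈ Finset.Ioc x (9 * x), a n * nt τ n‖ ^ 2 = I := by
    rw [hI]
    rfl
  rw [hI', ← hS]
  have e1 : 6 * (4 * x * (16 * ((Y : ℝ) / x) ^ 2 * I +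
      (32 / T + 1600 * x * (1 + Real.log x) / T ^ 2) * S)) =
      384 * ((Y : ℝ) ^ 2 / x * I) + 768 * (x / T * S) +
        38400 * ((x : ℝ) ^ 2 * (1 + Real.log x) / T ^ 2 * S) := by
    field_simp
    ring
  have e2 : 40000 * ((Y : ℝ) ^ 2 / x) * I +
      40000 * (x / T + (x : ℝ) ^ 2 * (1 + Real.log x) / T ^ 2) * S =
      40000 * ((Y : ℝ) ^ 2 / x * I) + 40000 * (x / T * S) +
        40000 * ((x : ℝ) ^ 2 * (1 + Real.log x) / T ^ 2 * S) := by
    ring
  rw [e1, e2]
  have p1 : 0 ≤ (Y : ℝ) ^ 2 / x * I := by positivity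
  have p2 : 0 ≤ x / T * S := by positivity
  have p3 : 0 ≤ (x : ℝ) ^ 2 * (1 + Real.log x) / T ^ 2 * S := by positivity
  linarith

end Pool.Agent.Q247.CR
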