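import Pool.Agent.Q236.CR.Stm

/-!
# Job WIN of project CR, part A: from additive windows to multiplicative windows
-/

set_option autoImplicit false

namespace Pool.Agent.Q247.CR

open Finset MeasureTheory Filter
open scoped ENNReal

/-- sums up to a real number -/
noncomputable def Sy (a : ℕ → ℂ) (x : ℕ) (y : ℝ) : ℂ :=
  ∑ n ∈ Finset.Ioc x (9 * x), if (n : ℝ) ≤ y then a n else 0

/-- the square of the norm as an extended real -/
noncomputable def qq (z : ℂ) : ℝ≥0∞ := ENNReal.ofReal (‖z‖ ^ 2)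

theorem qq_meas : Measurable qq :=
  ENNReal.measurable_ofReal.comp (measurable_norm.pow_const 2)

theorem qq_le (u v w : ℂ) : qq (u - v) ≤ 2 * qq (w - v) + 2 * qq (w - u) := by
  unfold qq
  have h2 : (2 : ℝ≥0∞) = ENNReal.ofReal 2 := by norm_num
  rw [h2, ← ENNReal.ofReal_mul (by norm_num), ← ENNReal.ofReal_mul (by norm_num),
    ← ENNReal.ofReal_add (by positivity) (by positivity)]
  apply ENNReal.ofReal_le_ofReal
  have h1 : ‖u - v‖ ≤ ‖w - v‖ + ‖w - u‖ := by
    have : u - v = (w - v) - (w - u) := by ring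
    rw [this]
    exact norm_sub_le _ _
  nlinarith [norm_nonneg (u - v), norm_nonneg (w - v), norm_nonneg (w - u),
    sq_nonneg (‖w - v‖ - ‖w - u‖)]

theorem Sy_meas (a : ℕ → ℂ) (x : ℕ) : Measurable (Sy a x) := by
  unfold Sy
  refine Finset.measurable_fun_sum _ fun n _ => ?_
  exact Measurable.ite (measurableSet_le measurable_const measurable_id) measurable_const
    measurable_const

theorem Sy_window {a : ℕ → ℂ} {x Y m : ℕ} (hxY : 10 * Y ≤ x) (hm : m ∈ Finset.Ioc x (2 * x))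
    {y : ℝ} (hy1 : (m : ℝ) ≤ y) (hy2 : y < m + 1) :
    Sy a x (y + Y) - Sy a x y = ∑ n ∈ Finset.Ioc m (m + Y), a n := by
  rw [Finset.mem_Ioc] at hm
  unfold Sy
  rw [← Finset.sum_sub_distrib]
  have h1 : Finset.Ioc x (9 * x) ∩ Finset.Ioc m (m + Y) = Finset.Ioc m (m + Y) := by
    apply Finset.inter_eq_right.2
    intro n hn
    rw [Finset.mem_Ioc] at hn ⊢
    omega
  rw [← h1, ← Finset.sum_ite_mem]
  refine Finset.sum_congr rfl fun n _ => ?_
  have e1 : (n : ℝ) ≤ y ↔ n ≤ m := by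
    constructor
    · intro h
      have : (n : ℝ) < m + 1 := by linarith
      have : n < m + 1 := by exact_mod_cast this
      omega
    · intro h
      have : (n : ℝ) ≤ m := by exact_mod_cast h
      linarith
  have e2 : (n : ℝ) ≤ y + Y ↔ n ≤ m + Y := by
    constructor
    · intro h
      have : (n : ℝ) < m + 1 + Y := by linarith
      have : n < m + 1 + Y := by exact_mod_cast this
      omega
    · intro h
      have : (n : ℝ) ≤ m + Y := by exact_mod_cast h
      linarith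
  simp only [e1, e2, Finset.mem_Ioc]
  by_cases c1 : n ≤ m
  · rw [if_pos (by omega), if_pos c1, if_neg (by omega), sub_self]
  · by_cases c2 : n ≤ m + Y
    · rw [if_pos c2, if_neg c1, if_pos (by omega), sub_zero]
    · rw [if_neg c2, if_neg c1, if_neg (by omega), sub_zero]

/-- the square of a multiplicative window -/
noncomputable def FF (a : ℕ → ℂ) (x : ℕ) (y k : ℝ) : ℝ≥0∞ :=
  qq (Sy a x (y * Real.exp k) - Sy a x y)

theorem FF_meas (a : ℕ → ℂ) (x : ℕ) : Measurable (Function.uncurry (FF a x)) := by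
  unfold FF
  refine qq_meas.comp (Measurable.sub ?_ ?_)
  · exact (Sy_meas a x).comp (measurable_fst.mul (Real.measurable_exp.comp measurable_snd))
  · exact (Sy_meas a x).comp measurable_fst

theorem FF_meas_k (a : ℕ → ℂ) (x : ℕ) (y : ℝ) : Measurable (FF a x y) := by
  unfold FF
  refine qq_meas.comp (Measurable.sub ?_ measurable_const)
  exact (Sy_meas a x).comp (measurable_const.mul Real.measurable_exp)

theorem shift_le (f : ℝ → ℝ≥0∞) (c : ℝ) (s t : Set ℝ) (hs : MeasurableSet s)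
    (ht : MeasurableSet t) (h : ∀ k ∈ s, k + c ∈ t) :
    ∫⁻ k in s, f (k + c) ≤ ∫⁻ k in t, f k := by
  rw [← lintegral_indicator hs, ← lintegral_indicator ht,
    ← lintegral_add_right_eq_self (t.indicator f) c]
  refine lintegral_mono fun k => ?_
  by_cases hk : k ∈ s
  · rw [Set.indicator_of_mem hk, Set.indicator_of_mem (h k hk)]
  · rw [Set.indicator_of_notMem hk]
    exact zero_le

/-- the average over the ratio -/
noncomputable def HH (a : ℕ → ℂ) (x : ℕ) (κ y : ℝ) : ℝ≥0∞ :=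
  ∫⁻ k in Set.Icc κ (4 * κ), FF a x y k

theorem HH_meas (a : ℕ → ℂ) (x : ℕ) (κ : ℝ) : Measurable (HH a x κ) := by
  unfold HH
  exact (FF_meas a x).lintegral_prod_right

theorem avg {a : ℕ → ℂ} {x Y : ℕ} (hx : 0 < x) {y : ℝ} (hy : (x : ℝ) ≤ y) :
    ENNReal.ofReal (2 * ((Y : ℝ) / x)) * qq (Sy a x (y + Y) - Sy a x y) ≤
      2 * HH a x ((Y : ℝ) / x) y + 2 * HH a x ((Y : ℝ) / x) (y + Y) := by
  obtain ⟨κ, hκ⟩ : ∃ κ : ℝ, κ = (Y : ℝ) / x := ⟨_, rfl⟩
  rw [← hκ]
  have hx0 : (0 : ℝ) < x := by exact_mod_cast hx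
  have hY0 : (0 : ℝ) ≤ Y := Nat.cast_nonneg Y
  have hκ0 : 0 ≤ κ := by rw [hκ]; positivity
  have hy0 : 0 < y := by linarith
  obtain ⟨c, hc⟩ : ∃ c : ℝ, c = Real.log ((y + Y) / y) := ⟨_, rfl⟩
  have hyY : 0 < y + Y := by linarith
  have hc0 : 0 ≤ c := by
    rw [hc]
    apply Real.log_nonneg
    rw [le_div_iff₀ hy0]
    linarith
  have hc1 : c ≤ κ := by
    rw [hc]
    have h1 := Real.log_le_sub_one_of_pos (div_pos hyY hy0)
    have h2 : (y + Y) / y - 1 = Y / y := by
      field_simp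
      ring
    rw [h2] at h1
    refine h1.trans ?_
    rw [hκ]
    gcongr
  have hexp : Real.exp (-c) = y / (y + Y) := by
    rw [Real.exp_neg, hc, Real.exp_log (div_pos hyY hy0), inv_div]
  have h1 : ENNReal.ofReal (2 * κ) * qq (Sy a x (y + Y) - Sy a x y) =
      ∫⁻ _ in Set.Icc (2 * κ) (4 * κ), qq (Sy a x (y + Y) - Sy a x y) := by
    rw [lintegral_const, Measure.restrict_apply MeasurableSet.univ, Set.univ_inter,
      Real.volume_Icc, mul_comm]
    congr 2
    ring
  have h2 : ∫⁻ _ in Set.Icc (2 * κ) (4 * κ), qq (Sy a x (y + Y) - Sy a x y) ≤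
      ∫⁻ k in Set.Icc (2 * κ) (4 * κ), (2 * FF a x y k + 2 * FF a x (y + Y) (k + -c)) := by
    refine lintegral_mono fun k => ?_
    have h3 : (y + Y) * Real.exp (k + -c) = y * Real.exp k := by
      rw [Real.exp_add, hexp]
      field_simp
    change qq (Sy a x (y + Y) - Sy a x y) ≤ 2 * FF a x y k + 2 * FF a x (y + Y) (k + -c)
    unfold FF
    rw [h3]
    exact qq_le _ _ _
  rw [h1]
  refine h2.trans ?_
  have hm2 : Measurable fun k => FF a x (y + Y) (k + -c) :=
    (FF_meas_k a x (y + Y)).comp (measurable_add_const (-c))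
  rw [lintegral_add_left ((FF_meas_k a x y).const_mul 2), lintegral_const_mul _ (FF_meas_k a x y),
    lintegral_const_mul _ hm2]
  refine add_le_add ?_ ?_
  · refine mul_le_mul_right ?_ 2
    exact lintegral_mono_set (Set.Icc_subset_Icc_left (by linarith))
  · refine mul_le_mul_right ?_ 2
    refine shift_le (FF a x (y + Y)) (-c) _ _ measurableSet_Icc measurableSet_Icc ?_
    intro k hk
    rw [Set.mem_Icc] at hk ⊢
    constructor
    · linarith
    · linarith

theorem sv {a : ℕ → ℂ} {x Y : ℕ} (hY : 1 ≤ Y) (hxY : 10 * Y ≤ x) (B : ℝ≥0∞)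
    (hB : ∀ k ∈ Set.Icc ((Y : ℝ) / x) (4 * ((Y : ℝ) / x)),
      ∫⁻ y in Set.Icc (x : ℝ) (3 * x + 1), FF a x y k ≤ B) :
    ∫⁻ y in Set.Icc (x : ℝ) (2 * x + 1), qq (Sy a x (y + Y) - Sy a x y) ≤ 6 * B := by
  have hx : 0 < x := by omega
  have hx0 : (0 : ℝ) < x := by exact_mod_cast hx
  have hY0 : (0 : ℝ) < Y := by exact_mod_cast hY
  obtain ⟨κ, hκ⟩ : ∃ κ : ℝ, κ = (Y : ℝ) / x := ⟨_, rfl⟩
  rw [← hκ] at hB
  have hκ0 : 0 < κ := by rw [hκ]; positivity
  have hYx : (Y : ℝ) ≤ x := by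
    have : Y ≤ x := by omega
    exact_mod_cast this
  have hqm : Measurable fun y : ℝ => qq (Sy a x (y + Y) - Sy a x y) :=
    qq_meas.comp (((Sy_meas a x).comp (measurable_add_const (Y : ℝ))).sub (Sy_meas a x))
  have h1 : ENNReal.ofReal (2 * κ) *
      ∫⁻ y in Set.Icc (x : ℝ) (2 * x + 1), qq (Sy a x (y + Y) - Sy a x y) ≤
      ∫⁻ y in Set.Icc (x : ℝ) (2 * x + 1), (2 * HH a x κ y + 2 * HH a x κ (y + Y)) := by
    rw [← lintegral_const_mul _ hqm]
    refine setLIntegral_mono' measurableSet_Icc fun y hy => ?_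
    rw [hκ]
    exact avg hx hy.1
  have h2 : ∫⁻ y in Set.Icc (x : ℝ) (2 * x + 1), (2 * HH a x κ y + 2 * HH a x κ (y + Y)) ≤
      4 * ∫⁻ y in Set.Icc (x : ℝ) (3 * x + 1), HH a x κ y := by
    have hm2 : Measurable fun y : ℝ => HH a x κ (y + Y) :=
      (HH_meas a x κ).comp (measurable_add_const (Y : ℝ))
    rw [lintegral_add_left ((HH_meas a x κ).const_mul 2), lintegral_const_mul _ (HH_meas a x κ),
      lintegral_const_mul _ hm2]
    have h3 : ∫⁻ y in Set.Icc (x : ℝ) (2 * x + 1), HH a x κ y ≤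
        ∫⁻ y in Set.Icc (x : ℝ) (3 * x + 1), HH a x κ y :=
      lintegral_mono_set (Set.Icc_subset_Icc_right (by linarith))
    have h4 : ∫⁻ y in Set.Icc (x : ℝ) (2 * x + 1), HH a x κ (y + Y) ≤
        ∫⁻ y in Set.Icc (x : ℝ) (3 * x + 1), HH a x κ y := by
      refine shift_le (HH a x κ) Y _ _ measurableSet_Icc measurableSet_Icc ?_
      intro y hy
      rw [Set.mem_Icc] at hy ⊢
      constructor <;> linarith
    refine (add_le_add (mul_le_mul_right h3 2) (mul_le_mul_right h4 2)).trans (le_of_eq ?_)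
    rw [← add_mul]
    norm_num
  have h3 : ∫⁻ y in Set.Icc (x : ℝ) (3 * x + 1), HH a x κ y ≤ B * ENNReal.ofReal (3 * κ) := by
    unfold HH
    rw [lintegral_lintegral_swap (FF_meas a x).aemeasurable]
    calc ∫⁻ k in Set.Icc κ (4 * κ), ∫⁻ y in Set.Icc (x : ℝ) (3 * x + 1), FF a x y k
        ≤ ∫⁻ _ in Set.Icc κ (4 * κ), B := setLIntegral_mono' measurableSet_Icc hB
      _ = B * ENNReal.ofReal (3 * κ) := by
          rw [lintegral_const, Measure.restrict_apply MeasurableSet.univ, Set.univ_inter,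
            Real.volume_Icc]
          congr 2
          ring
  have h4 : ENNReal.ofReal (2 * κ) *
      ∫⁻ y in Set.Icc (x : ℝ) (2 * x + 1), qq (Sy a x (y + Y) - Sy a x y) ≤
      ENNReal.ofReal (2 * κ) * (6 * B) := by
    refine h1.trans (h2.trans ((mul_le_mul_right h3 4).trans (le_of_eq ?_)))
    have e1 : ENNReal.ofReal (3 * κ) = 3 * ENNReal.ofReal κ := by
      rw [ENNReal.ofReal_mul (by norm_num)]
      norm_num
    have e2 : ENNReal.ofReal (2 * κ) = 2 * ENNReal.ofReal κ := by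
      rw [ENNReal.ofReal_mul (by norm_num)]
      norm_num
    rw [e1, e2]
    have e3 : (4 : ℝ≥0∞) * (B * (3 * ENNReal.ofReal κ)) = 12 * (ENNReal.ofReal κ * B) := by
      ring
    have e4 : 2 * ENNReal.ofReal κ * (6 * B) = 12 * (ENNReal.ofReal κ * B) := by
      ring
    rw [e3, e4]
  refine (ENNReal.mul_le_mul_iff_right ?_ ENNReal.ofReal_ne_top).1 h4
  have : 0 < ENNReal.ofReal (2 * κ) := ENNReal.ofReal_pos.2 (by linarith)
  exact this.ne'

/-- the windows as an integral -/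
theorem sum_windows {a : ℕ → ℂ} {x Y : ℕ} (hxY : 10 * Y ≤ x) :
    ENNReal.ofReal (∑ m ∈ Finset.Ioc x (2 * x), ‖∑ n ∈ Finset.Ioc m (m + Y), a n‖ ^ 2) ≤
      ∫⁻ y in Set.Icc (x : ℝ) (2 * x + 1), qq (Sy a x (y + Y) - Sy a x y) := by
  rw [ENNReal.ofReal_sum_of_nonneg (fun _ _ => by positivity)]
  have h1 : ∀ m ∈ Finset.Ioc x (2 * x), ENNReal.ofReal (‖∑ n ∈ Finset.Ioc m (m + Y), a n‖ ^ 2) =
      ∫⁻ y in Set.Ico (m : ℝ) (m + 1), qq (Sy a x (y + Y) - Sy a x y) := by
    intro m hm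
    have h2 : ∫⁻ y in Set.Ico (m : ℝ) (m + 1), qq (Sy a x (y + Y) - Sy a x y) =
        ∫⁻ _ in Set.Ico (m : ℝ) (m + 1), qq (∑ n ∈ Finset.Ioc m (m + Y), a n) := by
      refine setLIntegral_congr_fun measurableSet_Ico fun y hy => ?_
      change qq (Sy a x (y + Y) - Sy a x y) = _
      rw [Sy_window hxY hm hy.1 hy.2]
    rw [h2, lintegral_const, Measure.restrict_apply MeasurableSet.univ, Set.univ_inter,
      Real.volume_Ico]
    simp [qq]
  rw [Finset.sum_congr rfl h1, ← lintegral_biUnion_finset]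
  · refine lintegral_mono_set ?_
    intro y hy
    simp only [Set.mem_iUnion] at hy
    obtain ⟨m, hm, hy⟩ := hy
    rw [Finset.mem_Ioc] at hm
    rw [Set.mem_Icc]
    have h3 : (x : ℝ) ≤ m := by exact_mod_cast hm.1.le
    have h4 : (m : ℝ) ≤ 2 * x := by exact_mod_cast hm.2
    exact ⟨by linarith [hy.1], by linarith [hy.2]⟩
  · intro m _ n _ hmn
    rw [Function.onFun, Set.disjoint_left]
    intro y hy1 hy2
    apply hmn
    have h5 : (m : ℝ) < n + 1 := by linarith [hy1.1, hy2.2]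
    have h6 : (n : ℝ) < m + 1 := by linarith [hy1.2, hy2.1]
    have h7 : m < n + 1 := by exact_mod_cast h5
    have h8 : n < m + 1 := by exact_mod_cast h6
    omega
  · intro m _
    exact measurableSet_Ico

/-- indicators of logarithmic windows -/
noncomputable def GG (a : ℕ → ℂ) (x : ℕ) (k u : ℝ) : ℂ :=
  ∑ n ∈ Finset.Ioc x (9 * x),
    (Set.Ico (Real.log n - k) (Real.log n)).indicator (fun _ => a n) u

theorem FF_exp {a : ℕ → ℂ} {x : ℕ} {k : ℝ} (hk : 0 ≤ k) (u : ℝ) :
    FF a x (Real.exp u) k = qq (GG a x k u) := by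
  unfold FF GG Sy
  rw [← Real.exp_add, ← Finset.sum_sub_distrib]
  congr 1
  refine Finset.sum_congr rfl fun n hn => ?_
  rw [Finset.mem_Ioc] at hn
  have hn0 : (0 : ℝ) < n := by
    have : 0 < n := by omega
    exact_mod_cast this
  have e1 : (n : ℝ) ≤ Real.exp u ↔ Real.log n ≤ u := (Real.log_le_iff_le_exp hn0).symm
  have e2 : (n : ℝ) ≤ Real.exp (u + k) ↔ Real.log n ≤ u + k := (Real.log_le_iff_le_exp hn0).symm
  simp only [e1, e2, Set.indicator_apply, Set.mem_Ico]
  by_cases c1 : Real.log n ≤ u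
  · rw [if_pos (by linarith), if_pos c1, if_neg (by intro h; linarith [h.2]), sub_self]
  · by_cases c2 : Real.log n ≤ u + k
    · push Not at c1
      rw [if_pos c2, if_neg (not_le.2 c1), if_pos ⟨by linarith, c1⟩, sub_zero]
    · push Not at c1 c2
      rw [if_neg (not_le.2 c2), if_neg (not_le.2 c1), if_neg (by intro h; linarith [h.1]),
        sub_zero]

theorem change {a : ℕ → ℂ} {x : ℕ} (hx : 1 ≤ x) {k : ℝ} (hk : 0 ≤ k) :
    ∫⁻ y in Set.Icc (x : ℝ) (3 * x + 1), FF a x y k ≤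
      ENNReal.ofReal (4 * x) * ∫⁻ u, qq (GG a x k u) := by
  have hx1 : (1 : ℝ) ≤ x := by exact_mod_cast hx
  have hs : Set.Icc (x : ℝ) (3 * x + 1) ⊆
      Real.exp '' Set.Icc (Real.log x) (Real.log (3 * x + 1)) := by
    intro y hy
    have hy0 : 0 < y := by linarith [hy.1]
    refine ⟨Real.log y, ⟨Real.log_le_log (by linarith) hy.1, Real.log_le_log hy0 hy.2⟩,
      Real.exp_log hy0⟩
  have hGm : Measurable fun u => qq (GG a x k u) := by
    refine qq_meas.comp ?_
    unfold GG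
    exact Finset.measurable_fun_sum _ fun n _ => measurable_const.indicator measurableSet_Ico
  calc ∫⁻ y in Set.Icc (x : ℝ) (3 * x + 1), FF a x y k
      ≤ ∫⁻ y in Real.exp '' Set.Icc (Real.log x) (Real.log (3 * x + 1)), FF a x y k :=
        lintegral_mono_set hs
    _ = ∫⁻ u in Set.Icc (Real.log x) (Real.log (3 * x + 1)),
          ENNReal.ofReal |Real.exp u| * FF a x (Real.exp u) k :=
        lintegral_image_eq_lintegral_abs_deriv_mul measurableSet_Icc
          (fun u _ => (Real.hasDerivAt_exp u).hasDerivWithinAt) Real.exp_injective.injOn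
          (fun y => FF a x y k)
    _ ≤ ∫⁻ u in Set.Icc (Real.log x) (Real.log (3 * x + 1)),
          ENNReal.ofReal (4 * x) * qq (GG a x k u) := by
        refine setLIntegral_mono' measurableSet_Icc fun u hu => ?_
        rw [FF_exp hk]
        refine mul_le_mul_left ?_ _
        apply ENNReal.ofReal_le_ofReal
        rw [abs_of_pos (Real.exp_pos u)]
        have h1 := Real.exp_le_exp.2 hu.2
        rw [Real.exp_log (by linarith)] at h1
        linarith
    _ ≤ ∫⁻ u, ENNReal.ofReal (4 * x) * qq (GG a x k u) := setLIntegral_le_lintegral _ _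
    _ = ENNReal.ofReal (4 * x) * ∫⁻ u, qq (GG a x k u) := lintegral_const_mul _ hGm

end Pool.Agent.Q247.CR
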